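import Pool.Agent.Lib.MP_7b2682_an.K.Final

/-!
MP_7b2682_an, Q1: a frequently recurrent operator `T` for which `FRec(T)` is not dense lineable,
over the real and over the complex scalars.
-/

set_option autoImplicit false

open Topology Filter

namespace Pool.Agent.Results.MP_7b2682_an.NotDenseLineable

/-- the real or complex Banach space `ℓ¹` of absolutely summable sequences of scalars -/
abbrev EllOne (𝕜 : Type) [RCLike 𝕜] : Type := lp (fun _ : ℕ => 𝕜) 1

section defs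

variable {𝕜 : Type} [RCLike 𝕜] {X : Type*} [NormedAddCommGroup X] [NormedSpace 𝕜 X]

/-- the return set `N_T(x,U) = {n ≥ 1 : T^n x ∈ U}` -/
def returnSet (T : X →L[𝕜] X) (x : X) (U : Set X) : Set ℕ := {n | 1 ≤ n ∧ (T ^ n) x ∈ U}

/-- the lower density `liminf_{N → ∞} #(A ∩ [1,N]) / N` of a set `A` of natural numbers -/
noncomputable def lowerDensity (A : Set ℕ) : ℝ :=
  liminf (fun N : ℕ => ((A ∩ Set.Icc 1 N).ncard : ℝ) / (N : ℝ)) atTop

/-- `FRec(T)`: the vectors all of whose return sets (to neighbourhoods of the vector) have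
positive lower density -/
def FRec (T : X →L[𝕜] X) : Set X := {x | ∀ U ∈ 𝓝 x, 0 < lowerDensity (returnSet T x U)}

variable (𝕜) in
/-- `A` is dense lineable: `A ∪ {0}` contains a dense vector subspace -/
def DenseLineable (A : Set X) : Prop :=
  ∃ M : Submodule 𝕜 X, Dense (M : Set X) ∧ (M : Set X) ⊆ A ∪ {0}

end defs

theorem ratio_le_one (A : Set ℕ) (N : ℕ) : ((A ∩ Set.Icc 1 N).ncard : ℝ) / (N : ℝ) ≤ 1 := by
  have h1 : (A ∩ Set.Icc 1 N).ncard ≤ (Set.Icc 1 N).ncard :=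
    Set.ncard_le_ncard Set.inter_subset_right (Set.finite_Icc 1 N)
  have h2 : (Set.Icc 1 N).ncard = N := by
    rw [← Finset.coe_Icc, Set.ncard_coe_finset, Nat.card_Icc]; omega
  rw [h2] at h1
  apply div_le_one_of_le₀ _ (Nat.cast_nonneg N)
  exact_mod_cast h1

theorem ratio_nonneg (A : Set ℕ) (N : ℕ) : 0 ≤ ((A ∩ Set.Icc 1 N).ncard : ℝ) / (N : ℝ) := by
  positivity

/-- positive lower density in `δ`-form -/
theorem lowerDensity_pos (A : Set ℕ) : 0 < lowerDensity A ↔ ∃ δ : ℝ, 0 < δ ∧ ∃ N₀ : ℕ,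
    ∀ N : ℕ, N₀ ≤ N → δ * (N : ℝ) ≤ ((A ∩ Set.Icc 1 N).ncard : ℝ) := by
  have hb : IsBoundedUnder (· ≥ ·) atTop
      (fun N : ℕ => ((A ∩ Set.Icc 1 N).ncard : ℝ) / (N : ℝ)) :=
    isBoundedUnder_of ⟨0, fun N => ratio_nonneg A N⟩
  have hc : IsCoboundedUnder (· ≥ ·) atTop
      (fun N : ℕ => ((A ∩ Set.Icc 1 N).ncard : ℝ) / (N : ℝ)) :=
    (isBoundedUnder_of ⟨1, fun N => ratio_le_one A N⟩ : IsBoundedUnder (· ≤ ·) atTop
      (fun N : ℕ => ((A ∩ Set.Icc 1 N).ncard : ℝ) / (N : ℝ))).isCoboundedUnder_ge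
  constructor
  · intro h
    unfold lowerDensity at h
    set L := liminf (fun N : ℕ => ((A ∩ Set.Icc 1 N).ncard : ℝ) / (N : ℝ)) atTop with hL
    have h1 := eventually_lt_of_lt_liminf (show L / 2 < liminf
      (fun N : ℕ => ((A ∩ Set.Icc 1 N).ncard : ℝ) / (N : ℝ)) atTop by rw [← hL]; linarith) hb
    obtain ⟨N₀, hN⟩ := eventually_atTop.1 h1
    refine ⟨L / 2, by linarith, max N₀ 1, fun N hNN => ?_⟩
    have h2 := hN N ((le_max_left _ _).trans hNN)
    have h3 : (0:ℝ) < N := by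
      have : 1 ≤ N := (le_max_right _ _).trans hNN
      exact_mod_cast this
    rw [lt_div_iff₀ h3] at h2
    exact h2.le
  · rintro ⟨δ, hδ, N₀, hN⟩
    refine hδ.trans_le (le_liminf_of_le hc ?_)
    filter_upwards [eventually_ge_atTop (max N₀ 1)] with N hNN
    have h3 : (0:ℝ) < N := by
      have : 1 ≤ N := (le_max_right _ _).trans hNN
      exact_mod_cast this
    rw [le_div_iff₀ h3]
    exact hN N ((le_max_left _ _).trans hNN)

section core

open Pool.Agent.FRecExK (X e ev FR bb)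

variable {𝕜 : Type} [RCLike 𝕜] {Z : Type*} [NormedAddCommGroup Z] [NormedSpace 𝕜 Z]

theorem mem_FRec (T : Z →L[𝕜] Z) (x : Z) :
    x ∈ FRec T ↔ ∀ U ∈ 𝓝 x, ∃ δ : ℝ, 0 < δ ∧ ∃ N₀ : ℕ, ∀ N : ℕ, N₀ ≤ N →
      δ * (N : ℝ) ≤ (({n : ℕ | 1 ≤ n ∧ n ≤ N ∧ (T ^ n) x ∈ U}.ncard : ℕ) : ℝ) := by
  have hset : ∀ (U : Set Z) (N : ℕ), returnSet T x U ∩ Set.Icc 1 N =
      {n : ℕ | 1 ≤ n ∧ n ≤ N ∧ (T ^ n) x ∈ U} := by
    intro U N
    ext n
    simp only [returnSet, Set.mem_inter_iff, Set.mem_ofPred_eq, Set.mem_Icc]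
    tauto
  constructor
  · intro h U hU
    have := (lowerDensity_pos _).1 (h U hU)
    simpa only [hset] using this
  · intro h U hU
    apply (lowerDensity_pos _).2
    simpa only [hset] using h U hU

/-- reindexing `ℓ¹` along a bijection -/
noncomputable def reind {α β : Type} (φ : α ≃ β) :
    lp (fun _ : β => 𝕜) 1 →L[𝕜] lp (fun _ : α => 𝕜) 1 :=
  LinearMap.mkContinuous
    { toFun := fun f => ⟨fun a => f (φ a), by
        have h1 : (0:ℝ) < (1 : ENNReal).toReal := by norm_num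
        apply memℓp_gen
        exact (φ.summable_iff (f := fun b => ‖f b‖ ^ (1 : ENNReal).toReal)).2
          ((memℓp_gen_iff h1).1 (lp.memℓp f))⟩
      map_add' := fun f g => by ext a; rfl
      map_smul' := fun r f => by ext a; rfl } 1 (by
    intro f
    have h1 : (0:ℝ) < (1 : ENNReal).toReal := by norm_num
    rw [one_mul]
    apply le_of_eq
    have h2 := lp.hasSum_norm h1 f
    have h3 := (φ.hasSum_iff (f := fun b => ‖f b‖ ^ (1 : ENNReal).toReal)).2 h2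
    have h4 := lp.hasSum_norm h1 (⟨fun a => f (φ a), by
        apply memℓp_gen
        exact (φ.summable_iff (f := fun b => ‖f b‖ ^ (1 : ENNReal).toReal)).2
          ((memℓp_gen_iff h1).1 (lp.memℓp f))⟩ : lp (fun _ : α => 𝕜) 1)
    have h5 := h4.unique h3
    simpa using h5)

theorem reind_apply {α β : Type} (φ : α ≃ β) (f : lp (fun _ : β => 𝕜) 1) (a : α) :
    reind φ f a = f (φ a) := rfl

variable (i : X 𝕜 →L[𝕜] Z) (p : Z →L[𝕜] X 𝕜)

/-- the operator of the complemented copy, extended by the identity on the complement -/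
noncomputable def ext : Z →L[𝕜] Z :=
  (i ∘L Pool.Agent.FRecExK.T 𝕜 ∘L p) + (ContinuousLinearMap.id 𝕜 Z - i ∘L p)

theorem ext_apply (z : Z) : ext i p z = i (Pool.Agent.FRecExK.T 𝕜 (p z)) + (z - i (p z)) := rfl

variable {i p}

theorem ext_pow (h : ∀ x, p (i x) = x) (n : ℕ) (z : Z) :
    (ext i p ^ n) z = i ((Pool.Agent.FRecExK.T 𝕜 ^ n) (p z)) + (z - i (p z)) := by
  induction n with
  | zero => simp
  | succ n ih =>
    rw [pow_succ', mul_apply_eq_comp, ih, ext_apply, map_add, map_sub, h, h, sub_self, add_zero,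
      pow_succ', mul_apply_eq_comp]
    abel

theorem mem_FRec_ext (h : ∀ x, p (i x) = x) (z : Z) : z ∈ FRec (ext i p) ↔ FR (p z) := by
  rw [mem_FRec]
  constructor
  · intro hz V hV
    obtain ⟨δ, hδ, N₀, hN⟩ := hz (p ⁻¹' V) (p.continuous.continuousAt hV)
    refine ⟨δ, hδ, N₀, fun N hNN => ?_⟩
    have h1 := hN N hNN
    have h2 : {n : ℕ | 1 ≤ n ∧ n ≤ N ∧ (ext i p ^ n) z ∈ p ⁻¹' V} =
        {n : ℕ | 1 ≤ n ∧ n ≤ N ∧ (Pool.Agent.FRecExK.T 𝕜 ^ n) (p z) ∈ V} := by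
      ext n
      simp only [Set.mem_ofPred_eq, Set.mem_preimage, ext_pow h, map_add, map_sub, h, sub_self,
        add_zero]
    rwa [h2] at h1
  · intro hz U hU
    have hcont : Continuous fun w : X 𝕜 => i w + (z - i (p z)) := by fun_prop
    have hV : (fun w : X 𝕜 => i w + (z - i (p z))) ⁻¹' U ∈ 𝓝 (p z) := by
      apply hcont.continuousAt
      simpa using hU
    obtain ⟨δ, hδ, N₀, hN⟩ := hz _ hV
    refine ⟨δ, hδ, N₀, fun N hNN => ?_⟩
    have h1 := hN N hNN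
    have h2 : {n : ℕ | 1 ≤ n ∧ n ≤ N ∧ (ext i p ^ n) z ∈ U} =
        {n : ℕ | 1 ≤ n ∧ n ≤ N ∧ (Pool.Agent.FRecExK.T 𝕜 ^ n) (p z) ∈
          (fun w : X 𝕜 => i w + (z - i (p z))) ⁻¹' U} := by
      ext n
      simp only [Set.mem_ofPred_eq, Set.mem_preimage, ext_pow h]
    rwa [h2]

theorem FR_zero : FR (0 : X 𝕜) := by
  intro V hV
  refine ⟨1, one_pos, 0, fun N _ => ?_⟩
  have h1 : {n : ℕ | 1 ≤ n ∧ n ≤ N ∧ (Pool.Agent.FRecExK.T 𝕜 ^ n) 0 ∈ V} = Set.Icc 1 N := by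
    ext n
    simp only [Set.mem_ofPred_eq, map_zero, Set.mem_Icc]
    have := mem_of_mem_nhds hV
    tauto
  rw [h1, ← Finset.coe_Icc, Set.ncard_coe_finset, Nat.card_Icc, one_mul]
  simp

theorem core [CompleteSpace Z] (h : ∀ x, p (i x) = x) :
    ∃ T : Z →L[𝕜] Z, Dense (FRec T) ∧ ¬ DenseLineable 𝕜 (FRec T) ∧
      ∀ M : Set Z, (∀ x ∈ M, ∀ y ∈ M, x + y ∈ M) → M ⊆ FRec T ∪ {0} →
        ¬ FiniteDimensional 𝕜 (Z ⧸ (Submodule.span 𝕜 M).topologicalClosure) := by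
  have hset : FRec (ext i p) = p ⁻¹' {x : X 𝕜 | FR x} := by
    ext z; exact mem_FRec_ext h z
  have hsurj : Function.Surjective p := fun x => ⟨i x, h x⟩
  have hcod : ∀ M : Set Z, (∀ x ∈ M, ∀ y ∈ M, x + y ∈ M) → M ⊆ FRec (ext i p) ∪ {0} →
      ¬ FiniteDimensional 𝕜 (Z ⧸ (Submodule.span 𝕜 M).topologicalClosure) := by
    intro M hadd hM hfin
    have hM1 : p '' M ⊆ {x : X 𝕜 | FR x} := by
      rintro x ⟨z, hz, rfl⟩
      rcases hM hz with h1 | h1
      · exact (mem_FRec_ext h z).1 h1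
      · rw [Set.mem_singleton_iff] at h1
        rw [h1, map_zero]
        exact FR_zero
    have hadd1 : ∀ x ∈ p '' M, ∀ y ∈ p '' M, x + y ∈ p '' M := by
      rintro _ ⟨x, hx, rfl⟩ _ ⟨y, hy, rfl⟩
      exact ⟨x + y, hadd x hx y hy, map_add p x y⟩
    obtain ⟨l, hl⟩ := Pool.Agent.FRecExK.one_type _ hadd1 hM1
    have hcl : ∀ k : ℕ, (Submodule.span 𝕜 M).topologicalClosure ≤
        LinearMap.ker (((ev 𝕜 (l + 1 + k, 0)) ∘L p : Z →L[𝕜] 𝕜) : Z →ₗ[𝕜] 𝕜) := by
      intro k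
      apply (Submodule.span 𝕜 M).topologicalClosure_minimal
      · rw [Submodule.span_le]
        intro z hz
        rw [SetLike.mem_coe, LinearMap.mem_ker]
        change (p z) (l + 1 + k, 0) = 0
        exact hl (p z) ⟨z, hz, rfl⟩ _ (by simp only; omega)
      · exact ContinuousLinearMap.isClosed_ker ((ev 𝕜 (l + 1 + k, 0)) ∘L p : Z →L[𝕜] 𝕜)
    have hind : LinearIndependent 𝕜
        (fun k : ℕ => (Submodule.span 𝕜 M).topologicalClosure.mkQ
          (i (e 𝕜 (l + 1 + k, 0)))) := by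
      apply LinearIndependent.of_pairwise_dual_eq_zero_one _
        (fun k : ℕ => (Submodule.span 𝕜 M).topologicalClosure.liftQ
          (((ev 𝕜 (l + 1 + k, 0)) ∘L p : Z →L[𝕜] 𝕜) : Z →ₗ[𝕜] 𝕜) (hcl k))
      · intro j k hjk
        rw [Submodule.mkQ_apply, Submodule.liftQ_apply]
        change (p (i (e 𝕜 (l + 1 + k, 0)))) (l + 1 + j, 0) = 0
        rw [h, Pool.Agent.FRecExK.e_apply, if_neg]
        intro h1
        apply hjk
        simpa using h1
      · intro k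
        rw [Submodule.mkQ_apply, Submodule.liftQ_apply]
        change (p (i (e 𝕜 (l + 1 + k, 0)))) (l + 1 + k, 0) = 1
        rw [h, Pool.Agent.FRecExK.e_apply, if_pos rfl]
    have hfi : Finite ℕ := hind.finite
    exact (not_finite ℕ)
  refine ⟨ext i p, ?_, ?_, hcod⟩
  · rw [hset]
    exact Pool.Agent.FRecExK.dense_FR.preimage (p.isOpenMap hsurj)
  · rintro ⟨M, hM1, hM2⟩
    apply hcod (M : Set Z) (fun x hx y hy => M.add_mem hx hy) hM2
    have htop : M.topologicalClosure = ⊤ := (Submodule.dense_iff_topologicalClosure_eq_top).1 hM1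
    rw [Submodule.span_eq, htop]
    infer_instance

end core

/-- **Q1, negative answer**, over `𝕜 = ℝ` and over `𝕜 = ℂ`. Let `Z` be any Banach space over `𝕜`
containing a complemented copy of `ℓ¹` (continuous linear `i : ℓ¹ → Z` and `p : Z → ℓ¹` with
`p ∘ i = id`; for instance `Z = ℓ¹`). Then there is a frequently recurrent operator `T` on `Z`
such that `FRec(T)` is not dense lineable. Even more: every set `M ⊆ FRec(T) ∪ {0}` closed under
addition (a vector subspace, an additive subgroup, ...) spans a subspace whose closure has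
infinite codimension. -/
theorem result (𝕜 : Type) [RCLike 𝕜] {Z : Type*} [NormedAddCommGroup Z] [NormedSpace 𝕜 Z]
    [CompleteSpace Z] (i : EllOne 𝕜 →L[𝕜] Z) (p : Z →L[𝕜] EllOne 𝕜) (hpi : ∀ x, p (i x) = x) :
    ∃ T : Z →L[𝕜] Z, Dense (FRec T) ∧ ¬ DenseLineable 𝕜 (FRec T) ∧
      ∀ M : Set Z, (∀ x ∈ M, ∀ y ∈ M, x + y ∈ M) → M ⊆ FRec T ∪ {0} →
        ¬ FiniteDimensional 𝕜 (Z ⧸ (Submodule.span 𝕜 M).topologicalClosure) := by
  have φ : ℕ ≃ ℕ × ℕ := Nat.pairEquiv.symm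
  apply core (i := i ∘L reind φ) (p := reind φ.symm ∘L p)
  intro x
  change reind φ.symm (p (i (reind φ x))) = x
  rw [hpi]
  ext μ
  rw [reind_apply, reind_apply, Equiv.apply_symm_apply]

end Pool.Agent.Results.MP_7b2682_an.NotDenseLineable
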